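import Mathlib

set_option autoImplicit false

open Finset

namespace Pool.Agent.H.MP_e82249_co

variable {W : Type} [Fintype W] [DecidableEq W]

open Classical in
noncomputable def col (H : SimpleGraph W) (L : W → Finset ℕ) : Finset (W → ℕ) :=
  (Fintype.piFinset L).filter fun f => ∀ x y, H.Adj x y → f x ≠ f y

lemma mem_col {H : SimpleGraph W} {L : W → Finset ℕ} {f : W → ℕ} :
    f ∈ col H L ↔ (∀ v, f v ∈ L v) ∧ ∀ x y, H.Adj x y → f x ≠ f y := by
  simp [col, Fintype.mem_piFinset]

noncomputable def P (H : SimpleGraph W) (m : ℕ) : ℕ := #(col H fun _ => range m)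

lemma col_const (H : SimpleGraph W) (M : Finset ℕ) : #(col H fun _ => M) = P H #M := by
  obtain ⟨σ, hσ⟩ := Equiv.Perm.exists_map_finset_eq M (range #M) (by simp)
  have h : ∀ c, σ c ∈ range #M ↔ c ∈ M := by
    intro c; rw [← hσ]; simp
  refine card_nbij' (fun f => σ ∘ f) (fun f => σ.symm ∘ f) ?_ ?_ ?_ ?_
  · intro f hf
    rw [mem_coe, mem_col] at hf ⊢
    exact ⟨fun v => (h _).2 (hf.1 v), fun x y a e => hf.2 x y a (σ.injective e)⟩
  · intro f hf
    rw [mem_coe, mem_col] at hf ⊢
    exact ⟨fun v => (h _).1 (by simpa using hf.1 v), fun x y a e => hf.2 x y a (σ.symm.injective e)⟩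
  · intro f _; ext; simp
  · intro f _; ext; simp

lemma avg (H : SimpleGraph W) (L : W → Finset ℕ) (w : W) {m : ℕ} (hw : #(L w) = m + 1) :
    ∑ c ∈ L w, #(col H (Function.update L w ((L w).erase c))) = m * #(col H L) := by
  have e : ∀ c, col H (Function.update L w ((L w).erase c)) = (col H L).filter fun f => c ≠ f w := by
    intro c; ext f
    simp only [mem_col, mem_filter]
    constructor
    · rintro ⟨h1, h2⟩
      have h := h1 w
      rw [Function.update_self, mem_erase] at h
      refine ⟨⟨fun v => ?_, h2⟩, h.1.symm⟩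
      by_cases hv : v = w
      · rw [hv]; exact h.2
      · simpa [hv] using h1 v
    · rintro ⟨⟨h1, h2⟩, h3⟩
      refine ⟨fun v => ?_, h2⟩
      by_cases hv : v = w
      · subst hv; simp [h1 v, h3.symm]
      · simpa [hv] using h1 v
  simp only [e, card_filter]
  rw [sum_comm, mul_comm, ← smul_eq_mul, ← sum_const]
  refine sum_congr rfl fun f hf => ?_
  rw [← card_filter, filter_ne', card_erase_of_mem ((mem_col.1 hf).1 w), hw]
  rfl

def Good (H : SimpleGraph W) (m : ℕ) (r : ℝ) : Prop :=
  ∀ L : W → Finset ℕ, (∀ v, #(L v) = m) → r * P H m ≤ #(col H L)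

lemma extra {H : SimpleGraph W} {m : ℕ} {r : ℝ} (h : Good H m r) (hm : 0 < m) (hr : 0 ≤ r) :
    ∀ (R : ℕ) (L : W → Finset ℕ), (∀ v, #(L v) = m ∨ #(L v) = m + 1) →
      #{v | #(L v) = m + 1} = R → r * P H m * (1 + R / m) ≤ #(col H L) := by
  intro R
  induction R with
  | zero =>
    intro L h1 h2
    have := h L fun v => (h1 v).resolve_right fun hv => by
      have := card_eq_zero.1 h2
      rw [filter_eq_empty_iff] at this
      exact this (mem_univ v) hv
    simpa using this
  | succ R ih =>
    intro L h1 h2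
    obtain ⟨w, hw⟩ := card_pos.1 (R.succ_pos.trans_eq h2.symm)
    have hw' := (mem_filter.1 hw).2
    have a := congrArg (Nat.cast : ℕ → ℝ) (avg H L w hw')
    push_cast at a
    have b : ∀ c ∈ L w, r * P H m * (1 + R / m) ≤
        (#(col H (Function.update L w ((L w).erase c))) : ℝ) := by
      intro c hc
      have e : #((L w).erase c) = m := by rw [card_erase_of_mem hc, hw']; rfl
      refine ih _ (fun v => ?_) ?_
      · by_cases hv : v = w
        · subst hv; simp [e]
        · simpa [hv] using h1 v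
      · have : ({v | #(Function.update L w ((L w).erase c) v) = m + 1} : Finset W) =
            ({v | #(L v) = m + 1} : Finset W).erase w := by
          ext v
          by_cases hv : v = w
          · subst hv; simp [e]
          · simp [hv]
        rw [this, card_erase_of_mem hw, h2]; rfl
    have c := card_nsmul_le_sum _ _ _ b
    rw [a, hw', nsmul_eq_mul] at c
    have m0 : (0 : ℝ) < m := by exact_mod_cast hm
    have p0 : 0 ≤ r * P H m := by positivity
    refine le_of_mul_le_mul_left (le_trans ?_ c) m0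
    push_cast
    have : (m : ℝ) * (1 + (R + 1) / m) ≤ (m + 1) * (1 + R / m) := by
      have : (0 : ℝ) ≤ R / m := by positivity
      have e1 : (m : ℝ) * (1 + (R + 1) / m) = m + R + 1 := by field_simp; ring
      have e2 : (m + 1 : ℝ) * (1 + R / m) = m + R + 1 + R / m := by field_simp; ring
      linarith
    nlinarith

structure Cone {V : Type} (G : SimpleGraph V) (H : SimpleGraph W) (e : Option V ≃ W) : Prop where
  top : ∀ v, H.Adj (e none) (e (some v))
  adj : ∀ a b, G.Adj a b ↔ H.Adj (e (some a)) (e (some b))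

lemma cone {V : Type} [Fintype V] [DecidableEq V] {G : SimpleGraph V} {H : SimpleGraph W}
    {e : Option V ≃ W} (h : Cone G H e) (L : W → Finset ℕ) :
    #(col H L) = ∑ c ∈ L (e none), #(col G fun v => (L (e (some v))).erase c) := by
  rw [card_eq_sum_card_fiberwise (f := fun f => f (e none)) (t := L (e none))
    fun f hf => (mem_col.1 hf).1 _]
  refine sum_congr rfl fun c hc => ?_
  refine card_nbij' (fun f v => f (e (some v))) (fun g w => (e.symm w).elim c g) ?_ ?_ ?_ ?_
  · intro f hf
    rw [mem_coe, mem_filter, mem_col] at hf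
    rw [mem_coe, mem_col]
    refine ⟨fun v => mem_erase.2 ⟨?_, hf.1.1 _⟩, fun x y a => hf.1.2 _ _ ((h.adj x y).1 a)⟩
    rw [← hf.2]; exact (hf.1.2 _ _ (h.top v)).symm
  · intro g hg
    rw [mem_coe, mem_col] at hg
    rw [mem_coe, mem_filter, mem_col]
    refine ⟨⟨fun w => ?_, fun x y => ?_⟩, by simp⟩
    · obtain ⟨w, rfl⟩ := e.surjective w
      cases w with
      | none => simpa using hc
      | some v => simpa using (mem_erase.1 (hg.1 v)).2
    · obtain ⟨x, rfl⟩ := e.surjective x
      obtain ⟨y, rfl⟩ := e.surjective y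
      intro a
      cases x <;> cases y
      · exact absurd a H.irrefl
      · simpa using (mem_erase.1 (hg.1 _)).1.symm
      · simpa using (mem_erase.1 (hg.1 _)).1
      · simpa using hg.2 _ _ ((h.adj _ _).2 a)
  · intro f hf
    rw [mem_coe, mem_filter] at hf
    ext w
    obtain ⟨w, rfl⟩ := e.surjective w
    cases w <;> simp [hf.2]
  · intro g _; ext v; simp

lemma P_cone {V : Type} [Fintype V] [DecidableEq V] {G : SimpleGraph V} {H : SimpleGraph W}
    {e : Option V ≃ W} (h : Cone G H e) (m : ℕ) : P H m = m * P G (m - 1) := by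
  rw [P, cone h, sum_congr rfl fun c hc => col_const G _,
    sum_congr rfl fun c hc => by rw [card_erase_of_mem hc]]
  simp

lemma sym (H : SimpleGraph W) (A : W → Finset ℕ) (M : Finset ℕ)
    (hA : ∀ w, A w = M ∨ Disjoint (A w) M) (v : W) {c : ℕ} (hc : c ∈ M) :
    #M * #{f ∈ col H A | f v = c} ≤ #(col H A) := by
  rcases hA v with hv | hv
  · have e : ∀ d ∈ M, #{f ∈ col H A | f v = c} ≤ #{f ∈ col H A | f v = d} := by
      intro d hd
      refine card_le_card_of_injOn (fun f => Equiv.swap c d ∘ f) (fun f hf => ?_)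
        fun f _ g _ e => (Equiv.swap c d).injective.comp_left e
      rw [mem_coe, mem_filter, mem_col] at hf ⊢
      refine ⟨⟨fun w => ?_, fun x y a e => hf.1.2 x y a ((Equiv.swap c d).injective e)⟩, by
        simp [hf.2]⟩
      have := hf.1.1 w
      rcases hA w with hw | hw
      · rw [hw] at this ⊢
        simp only [Function.comp, Equiv.swap_apply_def]
        split_ifs <;> assumption
      · have n := disjoint_left.1 hw this
        simp only [Function.comp]
        rwa [Equiv.swap_apply_of_ne_of_ne (fun e : f w = c => n (e ▸ hc))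
          (fun e : f w = d => n (e ▸ hd))]
    rw [card_eq_sum_card_fiberwise (s := col H A) (f := fun f => f v) (t := M)
      fun f hf => hv ▸ (mem_col.1 hf).1 v]
    exact card_nsmul_le_sum _ _ _ e
  · rw [filter_eq_empty_iff.2 fun f hf (e : f v = c) =>
      disjoint_left.1 hv ((mem_col.1 hf).1 v) (e ▸ hc)]
    simp

lemma ub (H : SimpleGraph W) (A L : W → Finset ℕ) (M : Finset ℕ)
    (hA : ∀ w, A w = M ∨ Disjoint (A w) M) :
    #M * #(col H A) ≤ #M * #(col H fun w => A w \ (M \ L w)) + (∑ w, #(M \ L w)) * #(col H A) := by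
  have s : col H A ⊆ (col H fun w => A w \ (M \ L w)) ∪
      univ.biUnion fun w => (M \ L w).biUnion fun c => {f ∈ col H A | f w = c} := by
    intro f hf
    by_cases h : ∃ w, f w ∈ M \ L w
    · obtain ⟨w, hw⟩ := h
      exact mem_union_right _ (mem_biUnion.2 ⟨w, mem_univ _,
        mem_biUnion.2 ⟨_, hw, mem_filter.2 ⟨hf, rfl⟩⟩⟩)
    · push Not at h
      exact mem_union_left _ (mem_col.2 ⟨fun v => mem_sdiff.2 ⟨(mem_col.1 hf).1 v, h v⟩,
        (mem_col.1 hf).2⟩)
  have := (card_le_card s).trans ((card_union_le _ _).trans (Nat.add_le_add_left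
    (card_biUnion_le.trans (sum_le_sum fun w _ => card_biUnion_le)) _))
  refine (Nat.mul_le_mul_left _ this).trans ?_
  rw [mul_add, mul_sum, sum_mul]
  refine Nat.add_le_add_left (sum_le_sum fun w _ => ?_) _
  rw [mul_sum]
  exact sum_le_card_nsmul _ _ _ fun c hc => sym H A M hA w (mem_sdiff.1 hc).1

def Cl (H : SimpleGraph W) (q : ℕ) : Prop :=
  ∀ w, ∃ N : Finset W, #N = q ∧ (∀ x ∈ N, H.Adj w x) ∧ ∀ x ∈ N, ∀ y ∈ N, x ≠ y → H.Adj x y

lemma ext1 {H : SimpleGraph W} {q : ℕ} (h : Cl H q) (M : Finset ℕ) (w : W) {e : ℕ} (he : e ∉ M) :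
    P H #M ≤ (#M - q) * #(col H (Function.update (fun _ => M) w {e})) := by
  obtain ⟨N, h1, h2, h3⟩ := h w
  rw [← col_const]
  refine card_le_mul_card_image_of_maps_to (f := fun f => Function.update f w e) ?_ _ ?_
  · intro f hf
    rw [mem_col] at hf ⊢
    refine ⟨fun v => ?_, fun x y a => ?_⟩
    · by_cases hv : v = w
      · subst hv; simp
      · simpa [hv] using hf.1 v
    · by_cases hx : x = w
      · subst hx
        simp only [Function.update_self, Function.update_of_ne a.ne']
        exact fun e => he (e ▸ hf.1 y)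
      · by_cases hy : y = w
        · subst hy
          simp only [Function.update_self, Function.update_of_ne a.ne]
          exact fun e => he (e ▸ hf.1 x)
        · simpa [hx, hy] using hf.2 x y a
  · intro g hg
    rw [mem_col] at hg
    have s : N.image g ⊆ M := by
      intro c hc
      obtain ⟨x, hx, rfl⟩ := mem_image.1 hc
      simpa [(h2 x hx).ne'] using hg.1 x
    have i : #(N.image g) = q := by
      rw [card_image_of_injOn, h1]
      intro x hx y hy e
      by_contra n
      exact hg.2 x y (h3 x hx y hy n) e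
    rw [← i, ← card_sdiff_of_subset s]
    refine card_le_card_of_injOn (fun f => f w) (fun f hf => ?_) fun f hf f' hf' e => ?_
    · rw [mem_coe, mem_filter, mem_col] at hf
      refine mem_coe.2 (mem_sdiff.2 ⟨hf.1.1 w, fun hc => ?_⟩)
      obtain ⟨x, hx, e⟩ := mem_image.1 hc
      apply hf.1.2 w x (h2 x hx)
      rw [← hf.2] at e; simpa [(h2 x hx).ne'] using e.symm
    · rw [mem_coe, mem_filter] at hf hf'
      ext v
      by_cases hv : v = w
      · rw [hv]; exact e
      · simpa [hv] using congrFun (hf.2.trans hf'.2.symm) v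

lemma ar1 {m s D a b p : ℝ} (m0 : 0 < m) (s0 : 0 < s) (h : D ≤ m) (h1 : m * a ≤ m * b + D * a)
    (h2 : p ≤ s * a) : (m - D) * p / (m * s) ≤ b := by
  rw [div_le_iff₀ (by positivity)]
  nlinarith [mul_le_mul_of_nonneg_left h2 (show (0 : ℝ) ≤ m - D by linarith),
    mul_le_mul_of_nonneg_left h1 s0.le]

lemma ar2 {m q D a c p : ℝ} (m0 : 0 < m) (s0 : 0 < m - q) (D0 : 0 ≤ D) (p0 : 0 ≤ p) (h : D ≤ q)
    (h1 : m * p ≤ m * a + D * p) (h2 : a + D * ((m - D) * p / (m * (m - q))) ≤ c) : p ≤ c := by
  have u3 : D * (p / m) ≤ D * ((m - D) * p / (m * (m - q))) := by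
    refine mul_le_mul_of_nonneg_left ?_ D0
    rw [div_le_div_iff₀ m0 (by positivity)]
    have : 0 ≤ p * m * (q - D) := mul_nonneg (by positivity) (by linarith)
    nlinarith
  have u4 : m * (D * (p / m)) = D * p := by field_simp
  refine le_of_mul_le_mul_left ?_ m0
  nlinarith [mul_le_mul_of_nonneg_left (h2.trans' (add_le_add le_rfl u3)) m0.le]

lemma near {H : SimpleGraph W} {q : ℕ} (h : Cl H q) (M : Finset ℕ) (L : W → Finset ℕ)
    (hL : ∀ w, #(L w) = #M) (hq : q < #M) (hD : ∑ w, #(M \ L w) ≤ q) : P H #M ≤ #(col H L) := by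
  set B : (Σ _ : W, ℕ) → W → Finset ℕ := fun x w => Function.update (fun _ => M) x.1 {x.2} w \ (M \ L w)
  set S : Finset (Σ _ : W, ℕ) := univ.sigma fun w => L w \ M
  have hS : #S = ∑ w, #(M \ L w) := by
    rw [card_sigma]
    exact sum_congr rfl fun w _ => card_sdiff_comm (hL w)
  set D := ∑ w, #(M \ L w)
  have k1 : ∀ x, ∀ f ∈ col H (B x), f x.1 = x.2 ∧ ∀ w, w ≠ x.1 → f w ∈ M ∧ f w ∈ L w := by
    intro x f hf
    refine ⟨by simpa using (mem_sdiff.1 ((mem_col.1 hf).1 x.1)).1, fun w hw => ?_⟩
    have := (mem_col.1 hf).1 w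
    simp only [B, Function.update_of_ne hw, mem_sdiff] at this
    tauto
  have k2 : ∀ x ∈ S, x.2 ∈ L x.1 ∧ x.2 ∉ M := fun x hx => mem_sdiff.1 (mem_sigma.1 hx).2
  have sub : (col H fun w => M \ (M \ L w)) ∪ S.biUnion (fun x => col H (B x)) ⊆ col H L := by
    intro f hf
    rcases mem_union.1 hf with hf | hf
    · refine mem_col.2 ⟨fun v => ?_, (mem_col.1 hf).2⟩
      have := (mem_col.1 hf).1 v
      simp only [mem_sdiff] at this
      tauto
    · obtain ⟨x, hx, hf⟩ := mem_biUnion.1 hf
      refine mem_col.2 ⟨fun v => ?_, (mem_col.1 hf).2⟩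
      by_cases hv : v = x.1
      · rw [hv, (k1 x f hf).1]; exact (k2 x hx).1
      · exact ((k1 x f hf).2 v hv).2
  have c := card_le_card sub
  rw [card_union_of_disjoint, card_biUnion] at c
  · have u0 := ub H (fun _ => M) L M fun _ => Or.inl rfl
    rw [col_const] at u0
    have m0 : (0 : ℝ) < #M := by exact_mod_cast (Nat.zero_le _).trans_lt hq
    have s0 : (0 : ℝ) < #M - q := by
      have : (q : ℝ) < #M := by exact_mod_cast hq
      linarith
    have dq : (D : ℝ) ≤ q := by exact_mod_cast hD
    have u1 : ∀ x ∈ S, (#M - D) * P H #M / (#M * (#M - q)) ≤ (#(col H (B x)) : ℝ) := by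
      intro x hx
      have a := ub H (Function.update (fun _ => M) x.1 {x.2}) L M fun w => by
        by_cases hw : w = x.1
        · subst hw; right; simpa using (k2 x hx).2
        · left; simp [hw]
      have b := ext1 h M x.1 (k2 x hx).2
      have a' : (#M : ℝ) * #(col H (Function.update (fun _ => M) x.1 {x.2})) ≤
          #M * #(col H (B x)) + D * #(col H (Function.update (fun _ => M) x.1 {x.2})) := by
        exact_mod_cast a
      have b' : (P H #M : ℝ) ≤ (#M - q) * #(col H (Function.update (fun _ => M) x.1 {x.2})) := by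
        rw [← Nat.cast_sub hq.le]; exact_mod_cast b
      exact ar1 m0 s0 (by linarith) a' b'
    have u2 := card_nsmul_le_sum _ _ _ u1
    rw [hS, nsmul_eq_mul] at u2
    have c' : (#(col H fun w => M \ (M \ L w)) : ℝ) + ∑ x ∈ S, (#(col H (B x)) : ℝ) ≤
        #(col H L) := by exact_mod_cast c
    have u0' : (#M : ℝ) * P H #M ≤ #M * #(col H fun w => M \ (M \ L w)) + D * P H #M := by
      exact_mod_cast u0
    have := ar2 m0 s0 (Nat.cast_nonneg _) (Nat.cast_nonneg _) dq u0' (c'.trans' (add_le_add le_rfl u2))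
    exact_mod_cast this
  · intro x hx y hy n
    refine disjoint_left.2 fun f h1 h2 => n ?_
    by_cases e : x.1 = y.1
    · exact Sigma.ext e (heq_of_eq (by rw [← (k1 x f h1).1, ← (k1 y f h2).1, e]))
    · exact absurd ((k1 x f h1).1 ▸ ((k1 y f h2).2 _ e).1) (k2 x hx).2
  · refine disjoint_left.2 fun f h1 h2 => ?_
    obtain ⟨x, hx, hf⟩ := mem_biUnion.1 h2
    exact (k2 x hx).2 ((k1 x f hf).1 ▸ (mem_sdiff.1 ((mem_col.1 h1).1 x.1)).1)

lemma step {V : Type} [Fintype V] [DecidableEq V] {G : SimpleGraph V} {H : SimpleGraph W}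
    {e : Option V ≃ W} (h : Cone G H e) {q m : ℕ} (hc : Cl H q) (hq : q ≤ m) (hm : 0 < m) {r : ℝ}
    (hr : 0 ≤ r) (g : Good G m r) : Good H (m + 1) (min 1 (r * (1 + (q + 1) / (m * (m + 1))))) := by
  intro L hL
  set M := L (e none)
  have hM : #M = m + 1 := hL _
  by_cases hD : ∑ w, #(M \ L w) ≤ q
  · have := near hc M L (fun w => by rw [hL, hM]) (by omega) hD
    rw [hM] at this
    refine le_trans (mul_le_of_le_one_left (by positivity) (min_le_left _ _)) ?_
    exact_mod_cast this
  · refine le_trans (mul_le_mul_of_nonneg_right (min_le_right _ _) (by positivity)) ?_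
    rw [cone h, P_cone h]
    push_cast
    have a : ∀ c ∈ M, r * P G m * (1 + (#{v | c ∉ L (e (some v))} : ℝ) / m) ≤
        (#(col G fun v => (L (e (some v))).erase c) : ℝ) := by
      intro c _
      refine extra g hm hr _ _ (fun v => ?_) ?_
      · by_cases hv : c ∈ L (e (some v))
        · left; rw [card_erase_of_mem hv, hL]; rfl
        · right; rw [erase_eq_of_notMem hv, hL]
      · congr 1
        refine filter_congr fun v _ => ?_
        by_cases hv : c ∈ L (e (some v))
        · simp [hv, hL]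
        · simp [hv, hL]
    refine le_trans ?_ (sum_le_sum a)
    have b : ∑ c ∈ M, #{v | c ∉ L (e (some v))} = ∑ w, #(M \ L w) := by
      rw [← e.sum_comp, Fintype.sum_option]
      simp only [card_filter, sdiff_eq_filter]
      rw [sum_comm, sum_eq_zero (s := M) fun c hc => if_neg (not_not.2 hc), zero_add]
    have b' : (q + 1 : ℝ) ≤ ∑ c ∈ M, (#{v | c ∉ L (e (some v))} : ℝ) := by
      have : q + 1 ≤ ∑ c ∈ M, #{v | c ∉ L (e (some v))} := by omega
      exact_mod_cast this
    rw [← mul_sum, sum_add_distrib, ← sum_div, sum_const, hM, nsmul_eq_mul]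
    have m0 : (0 : ℝ) < m := by exact_mod_cast hm
    have : r * (1 + (q + 1) / (m * (m + 1))) * ((m + 1) * P G m) =
        r * P G m * ((m + 1) * 1 + (q + 1) / m) := by field_simp
    rw [this]
    push_cast
    gcongr

end Pool.Agent.H.MP_e82249_co
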