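import Pool.Agent.H.MP_e82249_co.A

set_option autoImplicit false

open Finset

namespace Pool.Agent.H.MP_e82249_co

variable {W : Type} [Fintype W] [DecidableEq W]

lemma bonf {ι α : Type} [DecidableEq ι] [DecidableEq α] (A : ι → Finset α) {a b : ℝ} (hb : 0 ≤ b)
    (E : Finset ι) (h1 : ∀ e ∈ E, a ≤ #(A e)) (h2 : ∀ e ∈ E, ∀ f ∈ E, e ≠ f → #(A e ∩ A f) ≤ b) :
    #E * a - #E ^ 2 * b ≤ #(E.biUnion A) := by
  induction E using Finset.induction_on with
  | empty => simp
  | insert e E he ih =>
    have i := ih (fun f hf => h1 f (mem_insert_of_mem hf))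
      fun f hf g hg => h2 f (mem_insert_of_mem hf) g (mem_insert_of_mem hg)
    have u : (#(A e ∪ E.biUnion A) : ℝ) + #(A e ∩ E.biUnion A) = #(A e) + #(E.biUnion A) := by
      exact_mod_cast card_union_add_card_inter _ _
    have v : (#(A e ∩ E.biUnion A) : ℝ) ≤ ∑ f ∈ E, (#(A e ∩ A f) : ℝ) := by
      rw [inter_biUnion]; exact_mod_cast card_biUnion_le
    have w := sum_le_card_nsmul E (fun f => (#(A e ∩ A f) : ℝ)) b fun f hf =>
      h2 e (mem_insert_self _ _) f (mem_insert_of_mem hf) fun h => he (h ▸ hf)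
    rw [nsmul_eq_mul] at w
    rw [biUnion_insert, card_insert_of_notMem he]
    have := h1 e (mem_insert_self _ _)
    have : 0 ≤ #E * b := by positivity
    push_cast
    nlinarith

omit [Fintype W] in
lemma free (S T : Finset (W → ℕ)) (b : W) (K : Finset ℕ)
    (h1 : ∀ f ∈ S, ∀ c ∈ K, Function.update f b c ∈ T)
    (h2 : ∀ f ∈ S, ∀ g ∈ S, (∀ v, v ≠ b → f v = g v) → f b = g b) : #S * #K ≤ #T := by
  rw [← card_product]
  refine card_le_card_of_injOn (fun x => Function.update x.1 b x.2)
    (fun x hx => h1 _ (mem_product.1 hx).1 _ (mem_product.1 hx).2) fun x hx y hy e => ?_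
  have a : ∀ v, v ≠ b → x.1 v = y.1 v := fun v hv => by simpa [hv] using congrFun e v
  refine Prod.ext (funext fun v => ?_) (by simpa using congrFun e b)
  by_cases hv : v = b
  · rw [hv]; exact h2 _ (mem_product.1 hx).1 _ (mem_product.1 hy).1 a
  · exact a v hv

def Ae (L : W → Finset ℕ) (e : W × W) : Finset (W → ℕ) := {f ∈ Fintype.piFinset L | f e.1 = f e.2}

lemma don (H : SimpleGraph W) : ∃ C : ℕ, ∀ k : ℕ, 0 < k → 2 * C ≤ k →
    Good H k (1 - 2 * C ^ 2 / k ^ 2) := by
  classical
  let r := Fintype.equivFin W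
  let E : Finset (W × W) := {e | r e.1 < r e.2 ∧ H.Adj e.1 e.2}
  have hE : ∀ e ∈ E, r e.1 < r e.2 ∧ H.Adj e.1 e.2 := fun e he => (mem_filter.1 he).2
  refine ⟨#E, fun k k0 hk L hL => ?_⟩
  have k0' : (0 : ℝ) < k := by exact_mod_cast k0
  set N : ℝ := k ^ Fintype.card W
  have om : ∀ L : W → Finset ℕ, (∀ v, #(L v) = k) → (#(Fintype.piFinset L) : ℝ) = N := by
    intro L hL; simp [hL, N]
  have c1 : ∀ L : W → Finset ℕ, (∀ v, #(L v) = k) →
      (#(col H L) : ℝ) + #(E.biUnion (Ae L)) = N := by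
    intro L hL
    have : col H L = Fintype.piFinset L \ E.biUnion (Ae L) := by
      ext f
      simp only [mem_col, mem_sdiff, mem_biUnion, Ae, mem_filter, Fintype.mem_piFinset]
      refine and_congr_right fun h => ⟨fun a ⟨e, he, _, b⟩ => a _ _ (hE e he).2 b, fun a x y b c => a ?_⟩
      rcases lt_or_gt_of_ne (r.injective.ne b.ne) with d | d
      · exact ⟨(x, y), mem_filter.2 ⟨mem_univ _, d, b⟩, h, c⟩
      · exact ⟨(y, x), mem_filter.2 ⟨mem_univ _, d, b.symm⟩, h, c.symm⟩
    rw [this, ← om L hL]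
    exact_mod_cast card_sdiff_add_card_eq_card (biUnion_subset.2 fun e _ => filter_subset _ _)
  have c2 : ∀ L : W → Finset ℕ, (∀ v, #(L v) = k) → ∀ e ∈ E, (#(Ae L e) : ℝ) ≤ N / k := by
    intro L hL e he
    have n := (hE e he).2.ne
    have := free (Ae L e) (Fintype.piFinset L) e.2 (L e.2) (fun f hf c hc => ?_) fun f hf g hg h => ?_
    · rw [le_div_iff₀ k0', ← om L hL, ← hL e.2]; exact_mod_cast this
    · refine Fintype.mem_piFinset.2 fun v => ?_
      by_cases hv : v = e.2
      · subst hv; simpa using hc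
      · simpa [hv] using Fintype.mem_piFinset.1 (mem_filter.1 hf).1 v
    · rw [← (mem_filter.1 hf).2, ← (mem_filter.1 hg).2, h _ n]
  have c3 : ∀ L : W → Finset ℕ, (∀ v, #(L v) = k) → N - #E * (N / k) ≤ #(col H L) := by
    intro L hL
    have a : (#(E.biUnion (Ae L)) : ℝ) ≤ ∑ e ∈ E, (#(Ae L e) : ℝ) := by
      exact_mod_cast card_biUnion_le
    have b := sum_le_card_nsmul E _ _ (c2 L hL)
    rw [nsmul_eq_mul] at b
    linarith [c1 L hL]
  have hU : ∀ v : W, #((fun _ => range k) v) = k := fun _ => card_range k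
  have c4 := bonf (Ae fun _ : W => range k) (a := N / k) (b := N / k / k) (by positivity) E
    (fun e he => ?_) fun e he f hf n => ?_
  · have a := c1 _ hU
    have b := c3 _ hU
    have c := c3 L hL
    have N0 : 0 ≤ N := by positivity
    have d : (#E : ℝ) * (N / k) ≤ N / 2 := by
      have : (2 * #E : ℝ) ≤ k := by exact_mod_cast hk
      rw [← mul_div_assoc, div_le_div_iff₀ k0' two_pos]
      nlinarith
    have e : (#E : ℝ) ^ 2 * (N / k / k) = #E ^ 2 / k ^ 2 * N := by field_simp
    have f : (0 : ℝ) ≤ #E ^ 2 / k ^ 2 := by positivity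
    rw [P, mul_div_assoc]
    nlinarith [mul_le_mul_of_nonneg_left (show N ≤ 2 * (#(col H fun _ => range k) : ℝ) by linarith) f]
  · have n := (hE e he).2.ne
    have := card_le_mul_card_image_of_maps_to (s := Fintype.piFinset fun _ : W => range k)
      (t := Ae (fun _ => range k) e) (f := fun g => Function.update g e.2 (g e.1))
      (fun g hg => ?_) k fun g hg => ?_
    · rw [div_le_iff₀ k0', ← om _ hU, mul_comm]; exact_mod_cast this
    · refine mem_filter.2 ⟨Fintype.mem_piFinset.2 fun v => ?_, by simp [n]⟩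
      by_cases hv : v = e.2
      · subst hv; simpa using Fintype.mem_piFinset.1 hg e.1
      · simpa [hv] using Fintype.mem_piFinset.1 hg v
    · rw [← card_range k]
      refine card_le_card_of_injOn (fun f => f e.2) (fun f hf => ?_) fun f hf f' hf' h => ?_
      · simpa using Fintype.mem_piFinset.1 (mem_filter.1 hf).1 e.2
      · ext v
        by_cases hv : v = e.2
        · rw [hv]; exact h
        · simpa [hv] using congrFun ((mem_filter.1 hf).2.trans (mem_filter.1 hf').2.symm) v
  · have key : ∀ b c : W, b ≠ e.1 → b ≠ e.2 → c ≠ b →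
        (∀ g ∈ Ae (fun _ => range k) f, g b = g c) →
        (#(Ae (fun _ => range k) e ∩ Ae (fun _ => range k) f) : ℝ) ≤ N / k / k := by
      intro b c h1 h2 h3 h4
      have := free (Ae (fun _ => range k) e ∩ Ae (fun _ => range k) f) (Ae (fun _ => range k) e) b
        (range k) (fun g hg d hd => ?_) fun g hg g' hg' h => ?_
      · rw [le_div_iff₀ k0']
        refine le_trans ?_ (c2 _ hU e he)
        rw [card_range] at this
        exact_mod_cast this
      · have hg := mem_filter.1 (mem_inter.1 hg).1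
        refine mem_filter.2 ⟨Fintype.mem_piFinset.2 fun v => ?_, by simpa [h1.symm, h2.symm] using hg.2⟩
        by_cases hv : v = b
        · subst hv; simpa using hd
        · simpa [hv] using Fintype.mem_piFinset.1 hg.1 v
      · rw [h4 g (mem_inter.1 hg).2, h4 g' (mem_inter.1 hg').2, h c h3]
    have e1 := (hE e he).1
    have f1 := (hE f hf).1
    by_cases h : f.1 ≠ e.1 ∧ f.1 ≠ e.2
    · exact key f.1 f.2 h.1 h.2 (hE f hf).2.ne' fun g hg => (mem_filter.1 hg).2
    · refine key f.2 f.1 (fun a => ?_) (fun a => ?_) (hE f hf).2.ne fun g hg => (mem_filter.1 hg).2.symm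
      · refine h ⟨fun b => ?_, fun b => ?_⟩
        · rw [a, b] at f1; exact lt_irrefl _ f1
        · rw [a, b] at f1; exact lt_asymm e1 f1
      · refine h ⟨fun b => n (Prod.ext b.symm a.symm), fun b => ?_⟩
        rw [a, b] at f1; exact lt_irrefl _ f1

end Pool.Agent.H.MP_e82249_co
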