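import Pool.Agent.H.MP_e82249_co.B

set_option autoImplicit false

open Finset Filter

namespace Pool.Agent.H.MP_e82249_co

variable {V : Type} [Fintype V] [DecidableEq V]

def jn {V : Type} (G : SimpleGraph V) (p : ℕ) : SimpleGraph (V ⊕ Fin p) :=
  SimpleGraph.fromRel fun x y => ∀ a b, x = Sum.inl a → y = Sum.inl b → G.Adj a b

omit [Fintype V] [DecidableEq V] in
lemma jn_ll (G : SimpleGraph V) (p : ℕ) (a b : V) : (jn G p).Adj (.inl a) (.inl b) ↔ G.Adj a b := by
  simp only [jn, SimpleGraph.fromRel_adj]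
  refine ⟨fun h => h.2.elim (fun h => h _ _ rfl rfl) fun h => (h _ _ rfl rfl).symm,
    fun h => ⟨by simpa using h.ne, Or.inl ?_⟩⟩
  rintro _ _ ⟨⟩ ⟨⟩; exact h

omit [Fintype V] [DecidableEq V] in
lemma jn_r (G : SimpleGraph V) (p : ℕ) (x : V ⊕ Fin p) (i : Fin p) :
    (jn G p).Adj x (.inr i) ↔ x ≠ .inr i := by
  simp [jn, SimpleGraph.fromRel_adj]

def eq (V : Type) (p : ℕ) : Option (V ⊕ Fin p) ≃ V ⊕ Fin (p + 1) where
  toFun x := x.elim (.inr 0) (Sum.map id Fin.succ)
  invFun := Sum.elim (fun a => some (.inl a)) (Fin.cases none fun i => some (.inr i))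
  left_inv := by rintro (_ | a | i) <;> simp
  right_inv := by
    rintro (a | i)
    · simp
    · cases i using Fin.cases <;> simp

omit [Fintype V] [DecidableEq V] in
lemma jn_cone (G : SimpleGraph V) (p : ℕ) : Cone (jn G p) (jn G (p + 1)) (eq V p) where
  top v := ((jn_r G _ _ 0).2 ((eq V p).injective.ne (Option.some_ne_none v))).symm
  adj := by
    rintro (a | i) (b | j)
    · exact (jn_ll G _ a b).trans (jn_ll G _ a b).symm
    · exact (jn_r G _ _ _).trans ((jn_r G _ _ j.succ).trans (by simp [eq])).symm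
    · rw [SimpleGraph.adj_comm, SimpleGraph.adj_comm (jn G (p + 1))]
      exact (jn_r G _ _ _).trans ((jn_r G _ _ i.succ).trans (by simp [eq])).symm
    · exact (jn_r G _ _ _).trans ((jn_r G _ _ j.succ).trans (by simp [eq])).symm

omit [Fintype V] in
lemma jn_cl (G : SimpleGraph V) (p : ℕ) : Cl (jn G (p + 1)) p := by
  intro w
  have : p ≤ #((univ.image (Sum.inr : Fin (p + 1) → V ⊕ Fin (p + 1))).erase w) := by
    have := pred_card_le_card_erase (s := univ.image (Sum.inr : Fin (p + 1) → V ⊕ Fin (p + 1)))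
      (a := w)
    rwa [card_image_of_injective _ Sum.inr_injective, card_univ, Fintype.card_fin] at this
  obtain ⟨N, h1, h2⟩ := exists_subset_card_eq this
  refine ⟨N, h2, fun x hx => ?_, fun x _ y hy n => ?_⟩
  · obtain ⟨i, _, rfl⟩ := mem_image.1 (mem_erase.1 (h1 hx)).2
    exact (jn_r G _ _ _).2 (mem_erase.1 (h1 hx)).1.symm
  · obtain ⟨i, _, rfl⟩ := mem_image.1 (mem_erase.1 (h1 hy)).2
    exact (jn_r G _ _ _).2 n

lemma Good.mono {H : SimpleGraph V} {m : ℕ} {r s : ℝ} (h : Good H m r) (hs : s ≤ r) : Good H m s :=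
  fun L hL => (mul_le_mul_of_nonneg_right hs (by positivity)).trans (h L hL)

noncomputable def tt (k i : ℕ) : ℝ := (i + 1) / ((k + i : ℕ) * ((k + i : ℕ) + 1))

lemma tt_nn (k i : ℕ) : 0 ≤ tt k i := by unfold tt; positivity

lemma iter (G : SimpleGraph V) {k p : ℕ} {r : ℝ} (hr : 0 ≤ r) (h0 : 0 < k + p)
    (h : Good (jn G p) (k + p) r) (d : ℕ) :
    Good (jn G (p + d)) (k + (p + d)) (min 1 (r * (1 + ∑ i ∈ range d, tt k (p + i)))) := by
  induction d with
  | zero => exact h.mono (by simp)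
  | succ d ih =>
    have s := sum_nonneg (s := range d) fun i _ => tt_nn k (p + i)
    have t := tt_nn k (p + d)
    refine (step (jn_cone G _) (jn_cl G _) (by omega) (by omega)
      (le_min zero_le_one (by positivity)) ih).mono (le_min (min_le_left _ _) ?_)
    change _ ≤ _ * (1 + tt k (p + d))
    rw [sum_range_succ, min_mul_of_nonneg _ _ (by linarith)]
    refine min_le_min (by linarith) ?_
    nlinarith [mul_nonneg hr (mul_nonneg s t)]

lemma P_pos (G : SimpleGraph V) : ∀ p m, 0 < P (jn G p) m → ∃ k, m = k + p ∧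
    ∃ φ : V → ℕ, (∀ v, φ v < k) ∧ ∀ a b, G.Adj a b → φ a ≠ φ b := by
  intro p
  induction p with
  | zero =>
    intro m h
    obtain ⟨f, hf⟩ := card_pos.1 h
    rw [mem_col] at hf
    exact ⟨m, rfl, fun v => f (.inl v), fun v => mem_range.1 (hf.1 _),
      fun a b c => hf.2 _ _ ((jn_ll G _ a b).2 c)⟩
  | succ p ih =>
    intro m h
    rw [P_cone (jn_cone G p)] at h
    obtain ⟨k, e, h'⟩ := ih _ (Nat.pos_of_mul_pos_left h)
    have := Nat.pos_of_mul_pos_right h
    exact ⟨k, by omega, h'⟩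

lemma hall (G : SimpleGraph V) {k p : ℕ} (hp : Fintype.card V ^ 2 < p) (φ : V → ℕ)
    (h1 : ∀ v, φ v < k) (h2 : ∀ a b, G.Adj a b → φ a ≠ φ b) (L : V ⊕ Fin p → Finset ℕ)
    (hL : ∀ x, #(L x) = k + p) : (col (jn G p) L).Nonempty := by
  set n := Fintype.card V
  let B : V → Finset (Fin p) := fun v => {u | n ≤ #(L (.inl v) \ L (.inr u))}
  let A : Finset V := {v | #(B v) < n}
  have nA : #A * n ≤ n ^ 2 := by rw [sq]; exact Nat.mul_le_mul_right _ (card_le_univ A)
  obtain ⟨u, -, hu⟩ : ∃ u ∈ (univ : Finset (Fin p)), u ∉ A.biUnion B := by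
    refine exists_mem_notMem_of_card_lt_card ?_
    have := card_biUnion_le_card_mul A B n fun v hv => (mem_filter.1 hv).2.le
    rw [card_univ, Fintype.card_fin]; omega
  have : k ≤ #(L (.inr u) \ A.biUnion fun v => L (.inr u) \ L (.inl v)) := by
    have a := card_biUnion_le_card_mul A (fun v => L (.inr u) \ L (.inl v)) n fun v hv => by
      have : u ∉ B v := fun h => hu (mem_biUnion.2 ⟨v, hv, h⟩)
      rw [card_sdiff_comm (by rw [hL, hL])]
      exact (not_le.1 fun h => this (mem_filter.2 ⟨mem_univ _, h⟩)).le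
    have b := le_card_sdiff (A.biUnion fun v => L (.inr u) \ L (.inl v)) (L (.inr u))
    rw [hL] at b; omega
  obtain ⟨T, hT, cT⟩ := exists_subset_card_eq this
  obtain ⟨σ, hσ⟩ := Equiv.Perm.exists_map_finset_eq (range k) T (by simp [cT])
  have sT : ∀ v, σ (φ v) ∈ T := fun v => hσ ▸ mem_map_of_mem _ (mem_range.2 (h1 v))
  have TL : ∀ v ∈ A, T ⊆ L (.inl v) := by
    intro v hv c hc
    have := mem_sdiff.1 (hT hc)
    by_contra n
    exact this.2 (mem_biUnion.2 ⟨v, hv, mem_sdiff.2 ⟨this.1, n⟩⟩)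
  obtain ⟨g, g1, g2⟩ := (all_card_le_biUnion_card_iff_exists_injective
    (fun x : {x : V ⊕ Fin p // ∀ v ∈ A, x ≠ .inl v} => L x.1 \ T)).1 fun s => by
    by_cases hs : #s ≤ p
    · rcases s.eq_empty_or_nonempty with rfl | ⟨x, hx⟩
      · simp
      · have a := card_le_card (subset_biUnion_of_mem (fun x => L x.1 \ T) hx)
        have b := le_card_sdiff T (L x.1)
        rw [hL, cT] at b; omega
    · set Y := s.map (Function.Embedding.subtype _)
      have c : #Y.toLeft + #Y.toRight = #s := by rw [card_toLeft_add_card_toRight, card_map]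
      have c1 : #Y.toLeft ≤ n := card_le_univ _
      have c2 : #Y.toRight ≤ p := by simpa using card_le_univ Y.toRight
      obtain ⟨v, hv⟩ := card_pos.1 (show 0 < #Y.toLeft by omega)
      obtain ⟨x, hx, e⟩ := mem_map.1 (mem_toLeft.1 hv)
      have vA : n ≤ #(B v) := not_lt.1 fun h => x.2 v (mem_filter.2 ⟨mem_univ _, h⟩) e
      obtain ⟨w, hw⟩ : (B v ∩ Y.toRight).Nonempty := by
        have a := card_union_add_card_inter (B v) Y.toRight
        have b : #(B v ∪ Y.toRight) ≤ p := by simpa using card_le_univ (B v ∪ Y.toRight)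
        exact card_pos.1 (by omega)
      obtain ⟨y, hy, e'⟩ := mem_map.1 (mem_toRight.1 (mem_inter.1 hw).2)
      have a : (L (.inl v) ∪ L (.inr w)) \ T ⊆ s.biUnion fun x => L x.1 \ T := by
        rw [union_sdiff_distrib, ← e, ← e']
        exact union_subset (subset_biUnion_of_mem (fun x => L x.1 \ T) hx)
          (subset_biUnion_of_mem (fun x => L x.1 \ T) hy)
      have a := card_le_card a
      have b := le_card_sdiff T (L (.inl v) ∪ L (.inr w))
      have d := card_sdiff_add_card (L (.inl v)) (L (.inr w))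
      have d' := (mem_filter.1 (mem_inter.1 hw).1).2
      rw [hL] at d; omega
  have cs : ∀ x : V ⊕ Fin p, ¬(∀ v ∈ A, x ≠ .inl v) → ∃ v ∈ A, x = .inl v := fun x h => by
    simpa using h
  refine ⟨fun x => if h : ∀ v ∈ A, x ≠ .inl v then g ⟨x, h⟩ else σ (x.elim φ 0),
    mem_col.2 ⟨fun x => ?_, fun x y a => ?_⟩⟩
  · split_ifs with h
    · exact (mem_sdiff.1 (g2 ⟨x, h⟩)).1
    · obtain ⟨v, hv, rfl⟩ := cs x h
      exact TL v hv (sT v)
  · split_ifs with h h' h'
    · exact fun e => a.ne (congrArg Subtype.val (g1 e))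
    · obtain ⟨v, _, rfl⟩ := cs y h'
      exact fun e => (mem_sdiff.1 (g2 ⟨x, h⟩)).2 (e ▸ sT v)
    · obtain ⟨v, _, rfl⟩ := cs x h
      exact fun e => (mem_sdiff.1 (g2 ⟨y, h'⟩)).2 (e ▸ sT v)
    · obtain ⟨v, _, rfl⟩ := cs x h
      obtain ⟨w, _, rfl⟩ := cs y h'
      exact fun e => h2 v w ((jn_ll G _ _ _).1 a) (σ.injective e)

lemma up (G : SimpleGraph V) {k p : ℕ} {r : ℝ} (hr : 0 ≤ r) (h0 : 0 < k + p)
    (h : Good (jn G p) (k + p) r) {d : ℕ} (hd : 1 ≤ r * (1 + ∑ i ∈ range d, tt k (p + i))) :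
    ∀ q, p + d ≤ q → Good (jn G q) (k + q) 1 := by
  intro q hq
  obtain ⟨c, rfl⟩ := Nat.exists_eq_add_of_le hq
  have := iter G hr h0 h d
  rw [min_eq_left hd] at this
  refine (iter G zero_le_one (by omega) this c).mono (le_min le_rfl ?_)
  have := sum_nonneg (s := range c) fun i _ => tt_nn k (p + d + i)
  linarith

lemma small (G : SimpleGraph V) (k : ℕ) : ∀ᶠ q in atTop,
    (∃ φ : V → ℕ, (∀ v, φ v < k) ∧ ∀ a b, G.Adj a b → φ a ≠ φ b) → Good (jn G q) (k + q) 1 := by
  by_cases h : ∃ φ : V → ℕ, (∀ v, φ v < k) ∧ ∀ a b, G.Adj a b → φ a ≠ φ b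
  swap
  · exact Eventually.of_forall fun q h' => absurd h' h
  obtain ⟨φ, h1, h2⟩ := h
  set p := Fintype.card V ^ 2 + 1
  set a : ℝ := ((P (jn G p) (k + p) : ℕ) : ℝ)
  have a0 : 0 ≤ a := Nat.cast_nonneg _
  have g : Good (jn G p) (k + p) (1 / (a + 1)) := by
    intro L hL
    have : (1 : ℝ) ≤ #(col (jn G p) L) := by
      exact_mod_cast card_pos.2 (hall G (Nat.lt_succ_self _) φ h1 h2 L hL)
    refine le_trans ?_ this
    rw [one_div, inv_mul_le_iff₀ (by positivity)]
    linarith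
  obtain ⟨d, hd⟩ := (Real.tendsto_sum_range_one_div_nat_succ_atTop.eventually_ge_atTop
    (a * (k + p + 1) ^ 2)).exists
  have s : ∑ i ∈ range d, (1 / (i + 1) : ℝ) ≤ (k + p + 1) ^ 2 * ∑ i ∈ range d, tt k (p + i) := by
    rw [mul_sum]
    refine sum_le_sum fun i _ => ?_
    have p1 : (1 : ℝ) ≤ p := by exact_mod_cast Nat.succ_pos _
    have i0 : (0 : ℝ) ≤ i := by positivity
    have k0 : (0 : ℝ) ≤ k := by positivity
    unfold tt
    push_cast
    rw [← mul_div_assoc, div_le_div_iff₀ (by positivity) (by positivity)]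
    have e1 : (k + (p + i) + 1 : ℝ) ≤ (k + p + 1) * (i + 1) := by nlinarith
    have e2 : (k + (p + i) : ℝ) * (k + (p + i) + 1) ≤ ((k + p + 1) * (i + 1)) ^ 2 := by
      rw [sq]; gcongr; linarith
    have e3 : ((k + p + 1 : ℝ) * (i + 1)) ^ 2 ≤ (k + p + 1) ^ 2 * (p + i + 1) * (i + 1) := by
      rw [mul_pow, sq (i + 1 : ℝ), ← mul_assoc]; gcongr; linarith
    linarith
  have t : a ≤ ∑ i ∈ range d, tt k (p + i) :=
    le_of_mul_le_mul_left (by linarith) (show (0 : ℝ) < (k + p + 1) ^ 2 by positivity)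
  filter_upwards [eventually_ge_atTop (p + d)] with q hq _
  refine up G (by positivity) (by omega) g ?_ q hq
  rw [one_div, le_inv_mul_iff₀ (by positivity)]
  linarith

lemma large (G : SimpleGraph V) : ∃ K : ℕ, ∀ k q, K ≤ k → K ≤ q → Good (jn G q) (k + q) 1 := by
  obtain ⟨C, hC⟩ := don (jn G 0)
  refine ⟨16 * C ^ 2 + 2 * C + 1, fun k q hk hq => ?_⟩
  have k0 : (0 : ℝ) < k := by exact_mod_cast (show 0 < k by omega)
  have c : (C : ℝ) ^ 2 / k ^ 2 ≤ 1 / 4 := by
    have : (2 * C : ℝ) ≤ k := by exact_mod_cast (show 2 * C ≤ k by omega)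
    rw [div_le_div_iff₀ (by positivity) (by positivity)]
    nlinarith [mul_self_le_mul_self (by positivity) this]
  have c0 : (0 : ℝ) ≤ C ^ 2 / k ^ 2 := by positivity
  have s := card_nsmul_le_sum (range (16 * C ^ 2)) (fun i => tt k (0 + i)) (1 / (4 * k ^ 2))
    fun i hi => by
      have : (i + 1 : ℝ) ≤ k := by
        have := mem_range.1 hi
        exact_mod_cast (show i + 1 ≤ k by omega)
      have i0 : (0 : ℝ) ≤ i := by positivity
      unfold tt
      push_cast
      rw [div_le_div_iff₀ (by positivity) (by positivity)]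
      nlinarith [mul_nonneg i0 (sq_nonneg (k : ℝ))]
  rw [card_range, nsmul_eq_mul] at s
  have e : ((16 * C ^ 2 : ℕ) : ℝ) * (1 / (4 * k ^ 2)) = 4 * (C ^ 2 / k ^ 2) := by
    push_cast; field_simp; ring
  have g := hC k (by omega) (by omega)
  rw [mul_div_assoc] at g
  refine up G (p := 0) (d := 16 * C ^ 2) (by linarith) (by omega) g ?_ q (by omega)
  nlinarith [mul_le_mul_of_nonneg_left (e ▸ s) (show (0 : ℝ) ≤ 1 - 2 * (C ^ 2 / k ^ 2) by linarith)]

theorem main (G : SimpleGraph V) : ∀ᶠ q in atTop, ∀ m (L : V ⊕ Fin q → Finset ℕ),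
    (∀ v, #(L v) = m) → P (jn G q) m ≤ #(col (jn G q) L) := by
  obtain ⟨K, hK⟩ := large G
  filter_upwards [eventually_ge_atTop K, (eventually_all_finset (range K)).2 fun k _ => small G k]
    with q h1 h2 m L hL
  rcases Nat.eq_zero_or_pos (P (jn G q) m) with h | h
  · omega
  obtain ⟨k, rfl, hk⟩ := P_pos G q m h
  have : Good (jn G q) (k + q) 1 := by
    by_cases a : k < K
    · exact h2 k (mem_range.2 a) hk
    · exact hK k q (by omega) h1
  have := this L hL
  rw [one_mul] at this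
  exact_mod_cast this

end Pool.Agent.H.MP_e82249_co
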